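import Mathlib
import Pool.Agent.Lib.P6ea067.Upper

open Pool.Agent.Lib.P6ea067

namespace Pool.Agent.Results.MP_6ea067_co.TauThree

/-- The restricted signed `h`-fold sumset of `A`: all `ε₁ a₁ + ⋯ + ε_h a_h` with
`a₁, …, a_h ∈ A` pairwise distinct and every `εᵢ ∈ {1, -1}`. -/
def restrictedSignedSumset {G : Type*} [AddCommGroup G] (h : ℕ) (A : Set G) : Set G :=
  {x | ∃ a : Fin h → G, Function.Injective a ∧ (∀ i, a i ∈ A) ∧
    ∃ ε : Fin h → ℤ, (∀ i, ε i = 1 ∨ ε i = -1) ∧ ∑ i, ε i • a i = x}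

private lemma SF_of_notMem {p : ℕ} {A : Finset (ZMod p)}
    (h : (0 : ZMod p) ∉ restrictedSignedSumset 3 (A : Set (ZMod p))) : SF A := by
  intro a ha b hb c hc hab hac hbc
  have hinj : Function.Injective ![a, b, c] := by
    intro i j hij
    fin_cases i <;> fin_cases j <;> simp_all
  have hmem : ∀ i, (![a, b, c] : Fin 3 → ZMod p) i ∈ (A : Set (ZMod p)) := by
    intro i
    fin_cases i
    · exact ha
    · exact hb
    · exact hc
  refine ⟨fun h0 => h ?_, fun h0 => h ?_, fun h0 => h ?_, fun h0 => h ?_⟩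
  · refine ⟨![a, b, c], hinj, hmem, ![1, 1, 1], ?_, ?_⟩
    · intro i; fin_cases i <;> simp
    · simp [Fin.sum_univ_three]; exact h0
  · refine ⟨![a, b, c], hinj, hmem, ![1, 1, -1], ?_, ?_⟩
    · intro i; fin_cases i <;> simp
    · simp [Fin.sum_univ_three]; linear_combination h0
  · refine ⟨![a, b, c], hinj, hmem, ![1, -1, 1], ?_, ?_⟩
    · intro i; fin_cases i <;> simp
    · simp [Fin.sum_univ_three]; linear_combination h0
  · refine ⟨![a, b, c], hinj, hmem, ![1, -1, -1], ?_, ?_⟩
    · intro i; fin_cases i <;> simp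
    · simp [Fin.sum_univ_three]; linear_combination h0

private lemma notMem_of_SF {p : ℕ} {A : Finset (ZMod p)} (hA : SF A) :
    (0 : ZMod p) ∉ restrictedSignedSumset 3 (A : Set (ZMod p)) := by
  rintro ⟨a, hinj, hmem, ε, hε, hsum⟩
  have h01 : a 0 ≠ a 1 := fun h => by simpa using hinj h
  have h02 : a 0 ≠ a 2 := fun h => by simpa using hinj h
  have h12 : a 1 ≠ a 2 := fun h => by simpa using hinj h
  obtain ⟨H1, H2, H3, H4⟩ := hA _ (hmem 0) _ (hmem 1) _ (hmem 2) h01 h02 h12
  rw [Fin.sum_univ_three] at hsum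
  rcases hε 0 with e0 | e0 <;> rcases hε 1 with e1 | e1 <;> rcases hε 2 with e2 | e2 <;>
    rw [e0, e1, e2] at hsum <;> simp only [one_smul, neg_smul] at hsum
  · exact H1 hsum
  · exact H2 (by linear_combination hsum)
  · exact H3 (by linear_combination hsum)
  · exact H4 (by linear_combination hsum)
  · exact H4 (by linear_combination -hsum)
  · exact H3 (by linear_combination -hsum)
  · exact H2 (by linear_combination -hsum)
  · exact H1 (by linear_combination -hsum)

private lemma SF_of_card_lt {p : ℕ} {A : Finset (ZMod p)} (hA : A.card < 3) : SF A := by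
  intro a ha b hb c hc hab hac hbc
  exfalso
  have : ({a, b, c} : Finset (ZMod p)) ⊆ A := by
    intro x hx
    simp only [Finset.mem_insert, Finset.mem_singleton] at hx
    rcases hx with rfl | rfl | rfl <;> assumption
  have h := Finset.card_le_card this
  rw [Finset.card_eq_three.2 ⟨a, b, c, hab, hac, hbc, rfl⟩] at h
  omega

/-- The extremal set: an arithmetic progression of difference `2` of odd residues around `0`. -/
private def ext (p : ℕ) : Finset (ZMod p) :=
  (Finset.range (p / 3 + 1)).image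
    (fun i : ℕ => (((2 * (i : ℤ) + 1 - 2 * (((p / 3 + 1) / 2 : ℕ) : ℤ)) : ℤ) : ZMod p))

private lemma ext_card {p : ℕ} (h7 : 7 ≤ p) : (ext p).card = p / 3 + 1 := by
  rw [ext, Finset.card_image_of_injOn, Finset.card_range]
  intro i hi j hj hij
  simp only [Finset.coe_range, Set.mem_Iio] at hi hj
  simp only at hij
  rw [ZMod.intCast_eq_intCast_iff_dvd_sub] at hij
  obtain ⟨m, hm⟩ := hij
  have h1 : (p : ℤ) * m < p := by omega
  have h2 : -(p : ℤ) < (p : ℤ) * m := by omega
  have h3 : m < 1 := by nlinarith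
  have h4 : -1 < m := by nlinarith
  have h5 : m = 0 := by omega
  subst h5
  omega

private lemma ext_SF {p : ℕ} (h7 : 7 ≤ p) (hp : p.Prime) : SF (ext p) := by
  have hmod : p % 6 = 1 ∨ p % 6 = 5 := by
    have h2 : ¬ 2 ∣ p := fun h => by
      have := (Nat.prime_dvd_prime_iff_eq Nat.prime_two hp).1 h; omega
    have h3 : ¬ 3 ∣ p := fun h => by
      have := (Nat.prime_dvd_prime_iff_eq Nat.prime_three hp).1 h; omega
    omega
  intro a ha b hb c hc hab hac hbc
  rw [ext, Finset.mem_image] at ha hb hc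
  obtain ⟨i, hi, rfl⟩ := ha
  obtain ⟨j, hj, rfl⟩ := hb
  obtain ⟨k, hk, rfl⟩ := hc
  rw [Finset.mem_range] at hi hj hk
  have hij : i ≠ j := by rintro rfl; exact hab rfl
  have hik : i ≠ k := by rintro rfl; exact hac rfl
  have hjk : j ≠ k := by rintro rfl; exact hbc rfl
  have gen : ∀ T : ℤ, (T : ZMod p) = 0 → T < p → -(p : ℤ) < T → T % 2 = 1 → False := by
    intro T hT h1 h2 h3
    rw [ZMod.intCast_zmod_eq_zero_iff_dvd] at hT
    obtain ⟨m, hm⟩ := hT
    have h4 : m < 1 := by nlinarith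
    have h5 : -1 < m := by nlinarith
    have h6 : m = 0 := by omega
    subst h6
    omega
  refine ⟨fun h => ?_, fun h => ?_, fun h => ?_, fun h => ?_⟩
  · refine gen ((2 * (i : ℤ) + 1 - 2 * (((p / 3 + 1) / 2 : ℕ) : ℤ))
      + (2 * (j : ℤ) + 1 - 2 * (((p / 3 + 1) / 2 : ℕ) : ℤ))
      + (2 * (k : ℤ) + 1 - 2 * (((p / 3 + 1) / 2 : ℕ) : ℤ))) ?_ ?_ ?_ ?_
    · rw [← h]; push_cast; ring
    · omega
    · omega
    · omega
  · refine gen ((2 * (i : ℤ) + 1 - 2 * (((p / 3 + 1) / 2 : ℕ) : ℤ))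
      + (2 * (j : ℤ) + 1 - 2 * (((p / 3 + 1) / 2 : ℕ) : ℤ))
      - (2 * (k : ℤ) + 1 - 2 * (((p / 3 + 1) / 2 : ℕ) : ℤ))) ?_ ?_ ?_ ?_
    · rw [← h]; push_cast; ring
    · omega
    · omega
    · omega
  · refine gen ((2 * (i : ℤ) + 1 - 2 * (((p / 3 + 1) / 2 : ℕ) : ℤ))
      - (2 * (j : ℤ) + 1 - 2 * (((p / 3 + 1) / 2 : ℕ) : ℤ))
      + (2 * (k : ℤ) + 1 - 2 * (((p / 3 + 1) / 2 : ℕ) : ℤ))) ?_ ?_ ?_ ?_
    · rw [← h]; push_cast; ring
    · omega
    · omega
    · omega
  · refine gen ((2 * (i : ℤ) + 1 - 2 * (((p / 3 + 1) / 2 : ℕ) : ℤ))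
      - (2 * (j : ℤ) + 1 - 2 * (((p / 3 + 1) / 2 : ℕ) : ℤ))
      - (2 * (k : ℤ) + 1 - 2 * (((p / 3 + 1) / 2 : ℕ) : ℤ))) ?_ ?_ ?_ ?_
    · rw [← h]; push_cast; ring
    · omega
    · omega
    · omega

private lemma low2 : ∃ A : Finset (ZMod 2), A.card = 2 ∧ SF A :=
  ⟨{0, 1}, by decide, SF_of_card_lt (by decide)⟩

private lemma low3 : ∃ A : Finset (ZMod 3), A.card = 2 ∧ SF A :=
  ⟨{0, 1}, by decide, SF_of_card_lt (by decide)⟩

private lemma low5 : ∃ A : Finset (ZMod 5), A.card = 3 ∧ SF A :=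
  ⟨{0, 1, 2}, by decide, by unfold SF; decide⟩

private lemma not_SF_univ3 : ¬ SF (Finset.univ : Finset (ZMod 3)) := by
  intro h
  exact (h 0 (Finset.mem_univ _) 1 (Finset.mem_univ _) 2 (Finset.mem_univ _) (by decide)
    (by decide) (by decide)).1 (by decide)

/-- For every prime `p`, the maximum size of a set `A ⊆ ℤ/pℤ` with `0` not in its restricted
signed `3`-fold sumset is `⌊p/3⌋ + 1`, except that it is `⌊p/3⌋ + 2` for `p = 2` and `p = 5`. -/
theorem result (p : ℕ) (hp : p.Prime) :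
    IsGreatest {k : ℕ | ∃ A : Finset (ZMod p), A.card = k ∧
        (0 : ZMod p) ∉ restrictedSignedSumset 3 (A : Set (ZMod p))}
      (if p = 2 ∨ p = 5 then p / 3 + 2 else p / 3 + 1) := by
  have : Fact p.Prime := ⟨hp⟩
  constructor
  · -- lower bound
    by_cases h2 : p = 2
    · subst h2
      obtain ⟨A, hA, hS⟩ := low2
      exact ⟨A, by simp [hA], notMem_of_SF hS⟩
    by_cases h3 : p = 3
    · subst h3
      obtain ⟨A, hA, hS⟩ := low3
      exact ⟨A, by simp [hA], notMem_of_SF hS⟩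
    by_cases h5 : p = 5
    · subst h5
      obtain ⟨A, hA, hS⟩ := low5
      exact ⟨A, by simp [hA], notMem_of_SF hS⟩
    have h7 : 7 ≤ p := by
      have := hp.two_le
      by_contra hcon
      have h4 : p = 4 ∨ p = 6 := by omega
      rcases h4 with rfl | rfl
      · exact absurd hp (by norm_num)
      · exact absurd hp (by norm_num)
    refine ⟨ext p, ?_, notMem_of_SF (ext_SF h7 hp)⟩
    rw [if_neg (by omega), ext_card h7]
  · -- upper bound
    rintro k ⟨A, rfl, hA⟩
    have hSF := SF_of_notMem hA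
    by_cases h2 : p = 2
    · subst h2
      have : A.card ≤ 2 := by
        calc _ ≤ (Finset.univ : Finset (ZMod 2)).card := Finset.card_le_univ _
          _ = 2 := by rw [Finset.card_univ, ZMod.card]
      simpa using this
    by_cases h3 : p = 3
    · subst h3
      have h1 : A.card ≤ 3 := by
        calc _ ≤ (Finset.univ : Finset (ZMod 3)).card := Finset.card_le_univ _
          _ = 3 := by rw [Finset.card_univ, ZMod.card]
      have h4 : A.card ≠ 3 := by
        intro h
        have hu : A = Finset.univ := by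
          apply Finset.eq_univ_of_card
          rw [h, ZMod.card]
        rw [hu] at hSF
        exact not_SF_univ3 hSF
      simp
      omega
    have h5 : 5 ≤ p := by
      have := hp.two_le
      by_contra hcon
      have h4 : p = 4 := by omega
      subst h4
      exact absurd hp (by norm_num)
    by_cases h0 : (0 : ZMod p) ∈ A
    · have := bound_of_zero_mem h5 h0 hSF
      split_ifs with h
      · omega
      · have h6 : p ≠ 6 := by rintro rfl; exact absurd hp (by norm_num)
        omega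
    · have := bound_of_zero_notMem h5 h0 hSF
      split_ifs with h
      · omega
      · omega

end Pool.Agent.Results.MP_6ea067_co.TauThree
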